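import Pool.Agent.K4H28.HP.Borel

set_option autoImplicit false

/-!
# All optimal constants are one

For all `1 ≤ i ≤ n - 1` the optimal constant in the volume inequality for the harmonic mean of the
volumes of the `i`-dimensional projections of a Borel set of Euclidean `n`-space is one.

The proof: codimension one projections are treated by Cauchy-Schwarz for the measure carried by the
set whose density is optimal for a ball, the Riesz energy with kernel `|x - y| ^ (1 - n)` of a ball,
and the isoperimetric inequality for the corresponding capacity (polarisation of killed random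
walks, passage to the Gaussian mixture representation of the kernel). The general case follows by
descending one dimension at a time, with invariance and Jensen's inequality.
-/

open MeasureTheory
open scoped ENNReal

namespace Pool.Agent.Results.MP_6f559f_gt.AllConstantsOne

open Pool.Agent.K4H28

/-- The volume of the unit ball of Euclidean `k`-space. -/
noncomputable def kappa (k : ℕ) : ℝ≥0∞ := volume (Metric.ball (0 : EuclideanSpace ℝ (Fin k)) 1)

variable {V : Type*} [NormedAddCommGroup V] [InnerProductSpace ℝ V] [FiniteDimensional ℝ V]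
  [MeasurableSpace V] [BorelSpace V]

/-- The harmonic mean of the volumes of the projections of `E` onto all subspaces of the dimension
of `S₀`, with respect to the rotation invariant probability measure, which is the law of `g S₀` for
`g` distributed according to the Haar probability measure `HP.rot` of the orthogonal group
`HP.OG V` of the Euclidean space `V`; here `HP.rotate g S₀` is the image of `S₀` under `g` and
`HP.shadow E S` is the Lebesgue measure of the orthogonal projection of `E` onto `S`. -/
noncomputable def harmonicMean (S₀ : Submodule ℝ V) (E : Set V) : ℝ≥0∞ :=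
  (∫⁻ g : HP.OG V, (HP.shadow E (HP.rotate g S₀))⁻¹ ∂(HP.rot V))⁻¹

/-- The inequality of the problem with the constant `c` holds for every Borel set. -/
def HoldsWith (n i : ℕ) (S₀ : Submodule ℝ V) (c : ℝ) : Prop :=
  ∀ E : Set V, MeasurableSet E →
    kappa n ^ (((n : ℝ) - i) / n) * volume E ^ ((i : ℝ) / n) ≤
      ENNReal.ofReal c * kappa n / kappa i * harmonicMean S₀ E

theorem kappa_eq {k : ℕ} (hk : 1 ≤ k) : kappa k = HP.om k := by
  have h1 : Nontrivial (EuclideanSpace ℝ (Fin k)) :=
    Module.nontrivial_of_finrank_pos (R := ℝ) (by simp; omega)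
  unfold kappa
  rw [HP.vol_ball, ENNReal.ofReal_one, one_pow, one_mul, finrank_euclideanSpace_fin]

/-- **All optimal constants are one.** -/
theorem result (n i : ℕ) (hn : 2 ≤ n) (hi : 1 ≤ i) (_hin : i ≤ n - 1)
    (V : Type) [NormedAddCommGroup V] [InnerProductSpace ℝ V] [FiniteDimensional ℝ V]
    [MeasurableSpace V] [BorelSpace V] (hV : Module.finrank ℝ V = n)
    (S₀ : Submodule ℝ V) (hS : Module.finrank ℝ S₀ = i) :
    IsLeast {c : ℝ | HoldsWith n i S₀ c} 1 := by
  have hn0 : (0 : ℝ) < n := by
    have : 0 < n := by omega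
    exact_mod_cast this
  have hi0 : (0 : ℝ) < i := by
    have : 0 < i := by omega
    exact_mod_cast this
  have hnt : Nontrivial V := Module.nontrivial_of_finrank_pos (R := ℝ) (by omega)
  have hsum : ((n : ℝ) - i) / n + (i : ℝ) / n = 1 := by
    field_simp
    ring
  constructor
  · intro E hE
    have h1 := HP.borel_ineq hE S₀ (by omega)
    rw [hS, hV] at h1
    rw [kappa_eq hi, kappa_eq (by omega : 1 ≤ n), ENNReal.ofReal_one, one_mul]
    unfold harmonicMean
    have hq0 : (0 : ℝ) ≤ (i : ℝ) / n := by positivity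
    set q : ℝ := (i : ℝ) / n with hq
    have h0 := HP.om_ne_zero n
    have ht := HP.om_ne_top n
    have h0' := HP.om_ne_zero i
    have ht' := HP.om_ne_top i
    have h2 : ((HP.om i)⁻¹ * (HP.om n * (volume E)⁻¹) ^ q)⁻¹ =
        HP.om i * ((HP.om n)⁻¹ ^ q * volume E ^ q) := by
      rw [ENNReal.mul_inv (Or.inl (ENNReal.inv_ne_zero.2 ht')) (Or.inl (ENNReal.inv_ne_top.2 h0')),
        inv_inv, ← ENNReal.inv_rpow, ENNReal.mul_inv (Or.inl h0) (Or.inl ht), inv_inv,
        ENNReal.mul_rpow_of_nonneg _ _ hq0]
    have h3 : HP.om n ^ q * (HP.om n)⁻¹ ^ q = 1 := by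
      rw [ENNReal.inv_rpow, ENNReal.mul_inv_cancel]
      · exact (ENNReal.rpow_pos (pos_iff_ne_zero.2 h0) ht).ne'
      · exact ENNReal.rpow_ne_top_of_nonneg hq0 ht
    have h4 : HP.om n = HP.om n ^ (((n : ℝ) - i) / n) * HP.om n ^ q := by
      rw [← ENNReal.rpow_add _ _ h0 ht, hsum, ENNReal.rpow_one]
    calc HP.om n ^ (((n : ℝ) - i) / n) * volume E ^ q
        = HP.om n ^ (((n : ℝ) - i) / n) * (HP.om n ^ q * (HP.om n)⁻¹ ^ q) * volume E ^ q := by
          rw [h3, mul_one]
      _ = HP.om n * ((HP.om n)⁻¹ ^ q * volume E ^ q) := by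
          rw [← mul_assoc (HP.om n ^ (((n : ℝ) - i) / n)), ← h4, mul_assoc]
      _ = HP.om n / HP.om i * (HP.om i * ((HP.om n)⁻¹ ^ q * volume E ^ q)) := by
          rw [← mul_assoc (HP.om n / HP.om i), ENNReal.div_mul_cancel h0' ht']
      _ = HP.om n / HP.om i * ((HP.om i)⁻¹ * (HP.om n * (volume E)⁻¹) ^ q)⁻¹ := by rw [h2]
      _ ≤ _ := by
          gcongr
  · intro c hc
    have h1 := hc (Metric.ball (0 : V) 1) measurableSet_ball
    have h2 : harmonicMean S₀ (Metric.ball (0 : V) 1) = HP.om i := by
      unfold harmonicMean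
      have h3 : ∀ g : HP.OG V,
          (HP.shadow (Metric.ball (0 : V) 1) (HP.rotate g S₀))⁻¹ = (HP.om i)⁻¹ := by
        intro g
        rw [HP.shadow_ball _ (by rw [HP.finrank_rotate]; omega), HP.finrank_rotate, hS]
      simp only [h3]
      rw [lintegral_const, measure_univ, mul_one, inv_inv]
    have h4 : volume (Metric.ball (0 : V) 1) = HP.om n := by
      rw [HP.vol_ball, ENNReal.ofReal_one, one_pow, one_mul, hV]
    rw [h2, h4, kappa_eq hi, kappa_eq (by omega : 1 ≤ n),
      ← ENNReal.rpow_add _ _ (HP.om_ne_zero _) (HP.om_ne_top _), hsum, ENNReal.rpow_one,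
      ENNReal.div_mul_cancel (HP.om_ne_zero _) (HP.om_ne_top _)] at h1
    have h5 : (1 : ℝ≥0∞) ≤ ENNReal.ofReal c := by
      by_contra hlt
      rw [not_le] at hlt
      have h6 : ENNReal.ofReal c * HP.om n < 1 * HP.om n :=
        ENNReal.mul_lt_mul_left (HP.om_ne_zero n) (HP.om_ne_top n) hlt
      rw [one_mul] at h6
      exact absurd h1 (not_le.2 h6)
    exact ENNReal.one_le_ofReal.1 h5

end Pool.Agent.Results.MP_6f559f_gt.AllConstantsOne
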